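import Pool.Agent.H940.F.Steps

/-!
# The strong monodromy conjecture for ideals generated by forms with locally weighted homogeneous
isolated singularities

We prove Q1 for the ideals of a class. The basic new objects are the ideals which are generated by forms
of degree `≥ 3` of the following class in disjoint sets of variables, and products of such ideals.

`LH` is the class of the forms `f` in `x_0, …, x_n` such that the hypersurface `{f = 0}` in the projective
space has only isolated singularities, and each of them is weighted homogeneous: after a formal change
of coordinates and up to a unit the germ is a weighted homogeneous polynomial with an isolated critical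
point (all weights positive). There is no hypothesis on `-(n + 1)/d`, and there are forms in the class for
which it is not a root of the Bernstein-Sato polynomial (for example `x ^ (d - 1) y + z ^ d`, `d ≥ 4`).
Examples: all reduced plane curves with singularities of type `A`, `D`, `E`, `x ^ a = y ^ b`, and so on (`n =
2`), for instance all reduced arrangements of lines, and of lines and conics with quasi-homogeneous
singularities; all surfaces in the projective three-space with rational double points, and so on in all
dimensions; all smooth hypersurfaces.

The class `Germ` is the smallest class of germs at the origin of tuples of polynomials (ideals) which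
contains the forms of degree `≥ 3` in `LH`, the weighted homogeneous polynomials with an isolated
critical point, and the class `Tower` of the library, and which is closed under: relative cones whose
germs outside of the vertex are in the class (if the expected root is one), sums (for `Germ true`) and
products of ideals in disjoint sets of variables, hypersurfaces `∑ y_j f_j(x) = 0`, and formal changes of
coordinates, units and smooth factors. The class `Fam` consists of the forms of degree `≥ 3` in `LH`, the class
`Glob` of the library, the tuples whose zero set is covered by finitely many charts with tuples of the class
`Germ`, the relative cones whose zeros outside of the vertex are covered in this way, and their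
products, hypersurfaces `∑ y_j f_j` and (for `Fam true`) sums, again and again.

**Method.** (1) The Jacobian ideal of a form `f` in `LH` is of linear type (`lty`), so the annihilator of `f ^ s`
is generated by operators of order one, up to what is needed for the following: if `b(s) f ^ s = P(s) f ^ (s
+ 1)` near the origin, then `b(-(n + 1)/d) = 0`, or there is a vector field which kills `f` and has a non-zero
divergence at the origin (`root_or_field`). (2) In the second case the semisimple part of the linear part of
the field gives a second one-parameter group of linear maps, with weights `w_i`, `∑ w_i ≠ 0`, which
fixes `f`. New here (`crit_max`, `lt_max`, `pair_of`, `sf_or_pair`): for `d ≥ 3` and the right sign of the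
weights all points of the eigenspace of the largest weight `w_(i₀)` are critical; the singular lines are
isolated, so the eigenspace is a line, the germ of `f` at this singular line is weighted homogeneous in LINEAR
coordinates for the positive weights `a_j = w_(i₀) - w_j` and the degree `e = d w_(i₀)`, and `-(∑ a_j)/e` is the root
which belongs to this singular point. (3) The motivic volumes of the arcs on which `f` has the order `≥ N`
satisfy a recursion for the group with the weights `a_j` (`a_(i₀) = 0` is allowed), with the denominator
`1 - 𝕃 ^ (-∑ a_j) T ^ e` only (`univ_second`). So in both cases all denominators are roots, and the zeta
function is in the ring for one finite set of pairs. The error terms come from arcs with origin outside of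
`0`: near the singular lines these are the volumes for the weighted homogeneous germs, and away from
them the order of the gradient of `f` is bounded, so that the volumes form a geometric series (`stable`).
(4) With this the forms in `LH` are admissible germs in the constructions of the library (cones, sums,
products, hypersurfaces, formal coordinates).
-/

set_option autoImplicit false

namespace Pool.Agent.Results.MP_ee8c61_ag.FormsLocallyWHIdeals

open MvPolynomial Pool.Agent.H940.G Pool.Agent.H940.F
open Pool.Agent.W428.MOT (MK Lu)
open Pool.Agent.TH192.MU (IsTopZeta zetaId)
open Pool.Agent.W574.SM (IsFunctionalEq)

/-- **Q1 for the ideals `I` generated by the tuples `f` of the class `Fam false`.**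

`Z` is the topological zeta function of `I` (`IsTopZeta E ε (zetaId f) Z`: for `s = 1, 2, …`, `Z(s)` is the
value under `ε` of the motivic zeta function of `I` at `T = 𝕃 ^ (-s)`, after a realisation `E` with values in
a domain `R`, where `ε (E 𝕃) = 1` and `E 𝕃 ≠ 1`; for instance the Euler characteristic, from the
Hodge-Deligne polynomials), `s₀` is a pole of `Z`, and `b` satisfies a functional equation of
Budur, Mustaţă and Saito for the `f_j` (for instance `b = b_I`). Then `b(s₀) = 0`. -/
theorem result {n r : ℕ} (f : Fin r → MvPolynomial (Fin n) ℂ) (hf : Fam false n r f)
    {R : Type} [CommRing R] [IsDomain R] (E : MK ℂ →+* R) (ε : R →+* ℂ)
    (hε : ε (E ((Lu ℂ : (MK ℂ)ˣ) : MK ℂ)) = 1) (hE : E ((Lu ℂ : (MK ℂ)ˣ) : MK ℂ) ≠ 1)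
    (Z : RatFunc ℂ) (hZ : IsTopZeta E ε (zetaId f) Z) (s₀ : ℂ) (hs : Z.denom.eval s₀ = 0)
    (b : Polynomial ℂ) (hb : IsFunctionalEq f b) : b.eval s₀ = 0 :=
  fam_top E ε hε hE hf Z hZ s₀ hs b hb

end Pool.Agent.Results.MP_ee8c61_ag.FormsLocallyWHIdeals
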