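import Pool.Agent.H941.ST.Root
import Pool.Graph.R_pool_sql_team_seeded_620a6dc7.helper748_mc_.FanThm

/-!
# The strong monodromy conjecture for linear systems of plane curves with a good member

`I = (f_j)` is an ideal of `ℂ[x₀, x₁, x₂]` generated by forms `f_j` of the same degree `d`. The topological
zeta function of `I` is `Z_J / (d s + 3)`, where `J` is the ideal sheaf which `I` defines on the projective
plane, and `Z_J` is computed by blowing up points; see `ConeZeta` (in `Pool.Agent.W574.CN.Defs`),
`PlaneZeta` and `LocalZeta` (in `Pool.Agent.W574.SM.ZetaDefs`). All poles except possibly `-3/d` are known
to be roots of `b_I` (`top_ideal_of`, starting library), so that the question is whether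
`b_I(-3/d) = 0`. We prove it if some linear combination `f = ∑ lam_j f_j` is of one of the following
types; there is no condition on the other members of the linear system, and on its base points.

* `SmoothComp`: `f = h ^ m g`, where `h` is a form of degree `e ≥ 2` such that the curve `h = 0` is
  smooth, `m ≥ 1`, `3 m ≠ d`, and `g` is an ARBITRARY form: the only condition is that the reduced
  curve `G = 0` of the zeros of `g` is transversal to the curve `h = 0`;
* `TwoLines`: `f = l₀ ^ m₀ l₁ ^ m₁ g`, where `l₀`, `l₁` are linear forms with different lines of zeros,
  `m₀, m₁ ≥ 1`, and `g` is an ARBITRARY form: the only condition is that the curve `g = 0`, which has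
  the degree `N ≥ 2` as a reduced curve, meets each of the two lines in `N` different points and does
  not contain the intersection point of the two lines;
* `CubicChain`: see below.

**The class `CubicChain`.** Let `f` be a form of degree `d` in three variables. We assume (`CubicChain`) that the curve `f = 0` is
the union of a curve `H = 0` of degree `e ≥ 3` and of curves `g_1 = 0, …, g_r = 0` such that

* `H = 0` has few bad points (`FewBad`): there are `K ≥ 0` linear forms `l_i` such that each line
  `l_i = 0` has at least `K + 4` different points on `H = 0`, and each singular point of `H = 0` is an
  ordinary double point of this curve (`NodeAt`), or a non-resonant quasi-homogeneous point of `f`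
  (`QHAt`: there is a vector field `θ` with `θ f = 0` and `θ(z) = c z`, which has integer weights on the
  tangent space, and `3 c` is no integer), or the product of the `l_i` is locally at this point in the
  ideal of the partial derivatives of `H` (`JacAt`). So arbitrary singular points are allowed, if the
  degree of `H` is large in comparison with the degrees of their Milnor algebras. Or, more
  generally, the continuous sections of `O(3)` on `H = 0`, which are regular at the non-resonant
  quasi-homogeneous points of `f`, are cubic forms (`Cubic`);
* let `D_j` be the union of `H = 0` and the curves `g_l = 0`, `l < j`. Then `g_j` is irreducible and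
  `g_j = 0` has more than `3 deg (g_j)` different points on `D_j`, or `g_j = 0` meets `D_j` only
  transversally or in non-resonant quasi-homogeneous points of `f`, and `D_j` has degree at least
  four or `g_j` is irreducible;
* `H = 0` has degree at least four and no other singular points than ordinary double points, or the
  linear vector fields which annihilate `f` have trace `0` (`TrZero`). (If there is such a field of
  trace `≠ 0`, then `f ^ (-3/d) dx₀ dx₁ dx₂` is exact.)

The multiplicities of all components in `f` are arbitrary, and so are the singularities of the
curves `g_j = 0` outside of `D_j` (in the first case, all of their singularities and intersections).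
So the curve `f = 0` may have singular points which are not quasi-homogeneous.

The proof of `b(-3/d) = 0`; put `s = -3/d` and let `s < 0` be no root of `b`:

* `bert`: there is a line which meets the reduced curve `Q = 0` in `N = deg Q` points; let it be
  the line at infinity for the affine coordinates `t = x₀`, `x₁ = 1`, `x = x₂`, such that the given
  points have different coordinates `t`, and the branches at the double points are not vertical;
* `exact_two'`, `dat`: the functional equation gives (by `root_of_not_exact`, in the library)
  `f ^ s = ∂_t (P f ^ (s - K)) + ∂_x (R f ^ (s - K))` with polynomials; over the field `ℂ(t)` the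
  order of the pole along `Q = 0` can be reduced to one;
* `fin_pt2`, `lim_inf'`: let `a_1(t), …, a_N(t)` be the roots of `Q(t, 1, x)`. The residues `y_j(t)` of
  the primitive at these roots satisfy a linear differential system. As all exponents are
  negative, an energy identity shows that they are bounded at all finite points, that they have
  the SAME limit on all branches through a point, and that `y_j = O(t ^ 3)` at infinity;
* `poly`: so the primitive `f ^ s = ∂_t (p f ^ s / Q) + ∂_x (ρ f ^ s / Q)` has polynomials `p, ρ`. By
  `tends` the residue `y` is a continuous section of `O(3)` on the curve;
* `loc`, `reg_form`: at a non-resonant quasi-homogeneous point, the vector field acts on the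
  truncated local ring with eigenvalues that are combinations of the weights; the shifted operator
  is invertible, so that the residue is the restriction of a regular function;
* `bdd_poly_t`, `start_local`: for the bad points, the product of the function `y` with the linear
  forms `l_i` is regular on `H = 0`, since it is in the ideal of the partial derivatives; so it is the
  restriction of a polynomial `B` of degree at most `K + 3` (by the growth at infinity);
* `strip`: at the points where a line `l_i = 0` meets `H = 0`, the polynomial `B` is `0`; there are at
  least `K + 4` such points on the line, so `l_i` divides `B` modulo `H`. By induction, `y` is the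
  restriction of a polynomial `Z` of degree at most three;
* `step`: the function `y - Z` on `g_j = 0` vanishes at the more than `3 deg (g_j)` points where the
  curve meets the previous ones, and is bounded by `t ^ 3`: the product of its values at the roots
  is an entire function of `t` with more zeros than its growth allows; `step2`, `step3`: the
  function `(y - Z) / D_j` on `g_j = 0` has no poles, and it is zero or a constant by its growth at
  infinity. By induction, `y = Z` on `Q = 0`;
* `endgame`: after subtracting `∂_t (∂_x (Z f ^ s)) - ∂_x (∂_t (Z f ^ s))`, the primitive is a vector field
  without poles which is tangent to `Q = 0`, of the total degree at most two. It vanishes if `H = 0`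
  has ordinary double points and degree at least four (`fin_nod`), and otherwise it comes from a
  linear vector field of trace `≠ 0` which annihilates `f` (`fin_lin`); this is a contradiction.
-/

set_option autoImplicit false

namespace Pool.Agent.Results.MP_ee8c61_ag.LinearSystems

open MvPolynomial Pool.Agent.W574.CN Pool.Agent.W574.SM Pool.Agent.Helper748.MC
  Pool.Agent.H941.TF Pool.Agent.H941.SC Pool.Agent.H941.QK

/-- **Q1 for linear systems of plane curves with a member of the class `CubicChain`, `SmoothComp` or
`TwoLines`.** Let `f_j` be forms of the same degree `d` in three variables, such that some linear
combination `∑ lam_j f_j` is in one of these classes (with `3 m ≠ d` in the second case), and let `b` be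
a polynomial which satisfies a functional equation of the `f_j` (in particular the Bernstein-Sato
polynomial of the ideal `I = (f_j)`). Then `b(-3/d) = 0`, and every pole of the topological zeta
function of `I` is a root of `b`. -/
theorem result {ι : Type} [Fintype ι] (f : ι → MvPolynomial (Fin 3) ℂ) (d : ℕ)
    (hf : ∀ j, (f j).IsHomogeneous d) (lam : ι → ℂ)
    (h : CubicChain (lcomb f lam) ∨ (∃ m, SmoothComp m (lcomb f lam) ∧ 3 * m ≠ d) ∨
      TwoLines (lcomb f lam))
    (b : Polynomial ℂ) (hb : IsFunctionalEq f b) :
    b.eval (-3 / d : ℂ) = 0 ∧
      ∀ Z : RatFunc ℂ, ConeZeta f d Z → ∀ s₀ : ℂ, Z.denom.eval s₀ = 0 → b.eval s₀ = 0 := by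
  classical
  have hL := lcomb_homog hf lam
  have hr : 0 < d ∧ b.eval (-3 / d : ℂ) = 0 := by
    rcases h with h | ⟨m, h, h3⟩ | h
    · exact ⟨h.deg hL, cubic_ideal f hf lam h b hb⟩
    · exact ⟨h.deg hL, smooth_ideal f hf lam h h3 b hb⟩
    · exact ⟨(not_exact_lines hL h).1, lines_ideal f d hf lam h b hb⟩
  exact ⟨hr.2, fun Z hZ s₀ hs₀ => top_ideal_of f d hr.1 hf b hb hr.2 Z hZ s₀ hs₀⟩

end Pool.Agent.Results.MP_ee8c61_ag.LinearSystems
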