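import Pool.Agent.H940.O.Clo

/-!
# The stronger form (Q2) for forms with locally weighted homogeneous isolated singularities

We prove Q2 (`b_I(s) Z_I(s)` is a polynomial: the order of every pole of the topological zeta function `Z_I`
is at most its multiplicity as a root of the Bernstein-Sato polynomial `b_I`) for all principal ideals
`I = (f)`, where `f ≠ 0` is a form of degree `d ≥ 2` in `x_0, …, x_n` (`n` arbitrary) such that the
hypersurface `{f = 0}` in the projective space has only isolated singularities, and each of them is weighted
homogeneous: after a formal change of coordinates and up to a unit the germ is a weighted homogeneous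
polynomial with an isolated critical point (all weights positive). The same for the local topological
zeta function at the origin. There are no other hypotheses; in particular it is not assumed that
`-(n + 1)/d` is a root of `b_f`, and there are forms in the class for which it is not one (for example
`x ^ (d - 1) y + z ^ d`, `d ≥ 4`).

With the closure theorem of the library (`MP_ee8c61_ag.DisjointVariables`), Q2 follows for the
class of the ideals and hypersurfaces which are obtained from these forms (and from arbitrary ideals
for which Q2 holds, for instance all ideals of `ℂ[x, y]`) by sums and products in disjoint sets of variables,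
hypersurfaces `∑ y_j f_j(x)` and Thom-Sebastiani sums `∑ y_j f_j(x) + g(z)`; this is the second part of the
theorem.

**Where poles of order two and three come from.** Let `s₀ = -(n + 1)/d`, the number of the vertex. If the
germ at a singular point of the projective hypersurface has the weights `w` and the degree `N` with
`(∑ w_t)/N = (n + 1)/d` (a coincident point), the two factors `1 - 𝕃 ^ (-(n + 1)) T ^ d` and `1 - 𝕃 ^ (-∑ w) T ^ N`
of the denominator have the same number; if moreover `s₀ = -1`, there is the factor `1 - 𝕃 ^ (-1) T` as well.

**Method.** (1) Functional equations. `b(s) = (s + 1) b'(s)`, and there is a reduced functional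
equation for `b'`; as the Jacobian ideal of `f` is of linear type (`lty`), the operators can be reduced to
fields which kill `f`. At a weighted homogeneous singular point there is a linear functional on polynomials
of one variable along the line which vanishes on all derivatives `t u' - ((∑ w)/N - …) u`; with these
functionals at the coincident points one obtains (`dbl_or_fix`): `s₀` is a DOUBLE root of `b'`, or there is a
linear field `θ` with `θ f = 0` which fixes all the coincident points, `θ(P) = P`. Also `b'` has the root
`-(∑ w)/N` for each singular point (`wgt_root`), and `b'(s₀) = 0` or a field which kills `f` has a non-zero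
divergence (`vertex_root`). (2) Motivic volumes. `Od a b m` are the series with at most `m` factors of the
number `a/b` in the denominator. The volumes of the arcs near a singular line of `f` have the order
`[s₀ = -1] + [(∑ w)/N = -s₀]` (`line_o`), away from the lines `[s₀ = -1]` (`VS_bdd_o`), and the vertex adds
one factor (`scalar_o`). A field with a divergence gives a second one-parameter group with another number
instead of the one of the vertex (`second_o`). (3) New here: if `θ` has the trace zero and fixes the coincident
points, an average of the semisimple part of `θ` gives integral weights `ω_i` in suitable linear coordinates,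
`∑ ω_i = 0`, `f` of weight zero, `ω_i = q > 0` for all coordinates which do not vanish at a coincident point
(`fix_coords`). For the boxes `V = {ord γ_i ≥ c}`, `V' = {ord γ_i ≥ c + q}` and `V'' = {ord γ_i ≥ c + ω_i}` the
series of `V` and `V''` are equal, and near the coincident lines `V''` is equal to `V'`; therefore the
series of `V ∖ V'` is a combination of the series of three sets which do not meet the coincident lines, and
one factor disappears (`fix_o`). (4) `top_order`: the number of the factors bounds the order of the pole of
the topological zeta function.

The `p`-adic analogue is the hand-in `OrdersLocallyWH` for MP_e7463b_ag: part (1) and the weights `ω` are the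
same, the rest is about integrals over `ℤ_p`.
-/

set_option autoImplicit false

namespace Pool.Agent.Results.MP_ee8c61_ag.OrdersLocallyWH

open MvPolynomial Pool.Agent.H940.G Pool.Agent.H940.O
open Pool.Agent.W428.MOT (MK Lu)
open Pool.Agent.TH192.MT (zetaO)
open Pool.Agent.TH192.MU (IsTopZeta zetaId)
open Pool.Agent.W574.SM (IsFunctionalEq)
open Pool.Agent.W574.RO (Fam)
open Pool.Agent.Y230.TH (TT)

/-- **Q2 for forms with only weighted homogeneous isolated projective singularities, and for the class
which they generate.**

`E` is a homomorphism from the localised Grothendieck ring of varieties to a domain `R` with `E 𝕃 ≠ 1`, such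
as the Hodge-Deligne polynomial, and `ε` a homomorphism from `R` to `ℂ` with `ε (E 𝕃) = 1`, so that `ε ∘ E` is
the Euler characteristic; `IsTopZeta E ε Zm Z` says that `Z` is the topological zeta function of the motivic
zeta function `Zm`.

(1) `f ≠ 0` is a form of degree `d ≥ 2` in `n + 1` variables. For every singular point of the projective
hypersurface, with the coordinates `x_i = 1` and `q` (all partial derivatives of `f` vanish there), the germ
`germAt i q f` of the dehomogenized form is weighted homogeneous with an isolated critical point in
suitable formal coordinates (`WHG`). `Z` is the topological zeta function of the ideal `(f)`, or the local one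
of `f` at the origin, and `b` satisfies a functional equation of Budur, Mustaţă and Saito for the generator
`f` of the ideal `(f)` (for instance `b = b_I = b_f`). Then `b Z` is a polynomial.

(2) Let `TT …` be the least classes of ideals (`c = false`) and hypersurfaces (`c = true`), given by finitely
many generators `A.f j` in finitely many variables, together with their topological zeta functions `Z`,
which contain the forms of part (1) (`FormAtom`) and all ideals and hypersurfaces for which Q2 holds
(`HasQ2`), and which are closed under sums and products in disjoint sets of variables, under passing from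
`(f_j)` to `∑ y_j f_j(x)` and to `∑ y_j f_j(x) + g(z)` for a hypersurface `g` in the class, under dropping
variables which do not occur, and under renaming. If `b` satisfies a functional equation of the generators,
then `b Z` is a polynomial. -/
theorem result {R : Type} [CommRing R] [IsDomain R] (E : MK ℂ →+* R) (ε : R →+* ℂ)
    (hε : ε (E ((Lu ℂ : (MK ℂ)ˣ) : MK ℂ)) = 1) (hE : E ((Lu ℂ : (MK ℂ)ˣ) : MK ℂ) ≠ 1) :
    (∀ {n : ℕ} (f : MvPolynomial (Fin (n + 1)) ℂ), f ≠ 0 → ∀ d : ℕ, 2 ≤ d → f.IsHomogeneous d →
      (∀ (i : Fin (n + 1)) (q : Fin n → ℂ), (∀ j, eval (i.insertNth 1 q) (pderiv j f) = 0) →
        ∃ (g : MvPolynomial (Fin n) ℂ) (w : Fin n → ℕ) (N : ℕ)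
          (η : Fin n → MvPowerSeries (Fin n) ℂ), WHG (germAt i q f) g w N η) →
      ∀ Z : RatFunc ℂ, (IsTopZeta E ε (zetaId fun _ : Fin 1 => f) Z ∨ IsTopZeta E ε (zetaO f) Z) →
      ∀ b : Polynomial ℂ, IsFunctionalEq (fun _ : Fin 1 => f) b →
      ∃ P : Polynomial ℂ, algebraMap (Polynomial ℂ) (RatFunc ℂ) b * Z =
        algebraMap (Polynomial ℂ) (RatFunc ℂ) P) ∧
    (∀ (c : Bool) (A : Fam) (Z : RatFunc ℂ),
      TT HasQ2 (HypAtom E ε) c A Z →
      ∀ b : Polynomial ℂ, IsFunctionalEq A.f b →
      ∃ P : Polynomial ℂ, algebraMap (Polynomial ℂ) (RatFunc ℂ) b * Z =
        algebraMap (Polynomial ℂ) (RatFunc ℂ) P) := by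
  refine ⟨fun {n} f hf0 d hd hf H Z hZ b hb => ?_, fun c A Z h b hb =>
    clo_q2 E ε hε hE c A Z h b hb⟩
  refine top_q2 hd hf hf0 H E ε hε hE b (Pool.Agent.Y229.isB_of_single _ b hb) Z ?_
  rw [Pool.Agent.Q57.MC.zetaJ_one]
  exact hZ

end Pool.Agent.Results.MP_ee8c61_ag.OrdersLocallyWH
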